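import Pool.Agent.Q117.LF.Stm7

/-! Project LF (helper117), part 7, job FSV (helper257). -/

set_option autoImplicit false

namespace Pool.Agent.Q257.LF

open Finset Filter
open Pool.Agent.Q117.LF

theorem Ro_mono {z z' : ℝ} (h : z' ≤ z) {m : ℤ} (hm : Ro z m) : Ro z' m := fun p hp hd => lt_of_le_of_lt h (hm p hp hd)

theorem Pt_mono {z z' : ℝ} (h : z' ≤ z) {m : ℤ} (hm : Pt z m) : Pt z' m := ⟨hm.1, Ro_mono h hm.2⟩

theorem toNat_prime {m : ℤ} (h0 : 0 < m) (h : m.natAbs.Prime) : m.toNat.Prime := by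
  have : m.toNat = m.natAbs := by omega
  rw [this]
  exact h

/-- enumeration of a finite set of integers -/
noncomputable def en (E : Finset ℤ) : Fin E.card → ℤ := fun i => ((E.equivFin.symm i : E) : ℤ)

theorem en_mem (E : Finset ℤ) (i : Fin E.card) : en E i ∈ E := (E.equivFin.symm i).2

theorem en_surj (E : Finset ℤ) {e : ℤ} (he : e ∈ E) : ∃ i, en E i = e := ⟨E.equivFin ⟨e, he⟩, by simp [en]⟩

theorem en_inj (E : Finset ℤ) : Function.Injective (en E) := fun i j h => by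
  have : E.equivFin.symm i = E.equivFin.symm j := Subtype.ext h
  exact E.equivFin.symm.injective this

theorem om_oF (E : Finset ℤ) {p : ℕ} (hp : p.Prime) : om (fun _ : Fin E.card => 1) (en E) p = oF E p := by
  classical
  have hp0 : (0 : ℤ) < p := by exact_mod_cast hp.pos
  unfold om oF
  symm
  refine Finset.card_bij (fun r _ => ((-r) % (p : ℤ)).toNat) ?_ ?_ ?_
  · intro r hr
    obtain ⟨e, he, rfl⟩ := Finset.mem_image.1 hr
    obtain ⟨i, hi⟩ := en_surj E he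
    have h1 : 0 ≤ (-(e % (p : ℤ))) % (p : ℤ) := Int.emod_nonneg _ hp0.ne'
    have h2 : (-(e % (p : ℤ))) % (p : ℤ) < p := Int.emod_lt_of_pos _ hp0
    rw [Finset.mem_filter, Finset.mem_range]
    refine ⟨by omega, i, ?_⟩
    unfold fm
    rw [hi, Int.toNat_of_nonneg h1, Nat.cast_one, one_mul]
    apply Int.dvd_of_emod_eq_zero
    rw [Int.add_emod, Int.emod_emod_of_dvd _ (dvd_refl _), ← Int.add_emod]
    have : (-(e % (p : ℤ)) + e) = p * (e / p) := by
      have := Int.emod_add_mul_ediv e p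
      linarith
    rw [this]
    exact Int.mul_emod_right _ _
  · intro r₁ hr₁ r₂ hr₂ h
    obtain ⟨e₁, _, rfl⟩ := Finset.mem_image.1 hr₁
    obtain ⟨e₂, _, rfl⟩ := Finset.mem_image.1 hr₂
    have a1 : 0 ≤ (-(e₁ % (p : ℤ))) % (p : ℤ) := Int.emod_nonneg _ hp0.ne'
    have a2 : 0 ≤ (-(e₂ % (p : ℤ))) % (p : ℤ) := Int.emod_nonneg _ hp0.ne'
    have h1 : (-(e₁ % (p : ℤ))) % (p : ℤ) = (-(e₂ % (p : ℤ))) % (p : ℤ) := by
      omega
    have h2 : (p : ℤ) ∣ (-(e₂ % (p : ℤ))) - (-(e₁ % (p : ℤ))) := Int.ModEq.dvd h1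
    have b1 : 0 ≤ e₁ % (p : ℤ) := Int.emod_nonneg _ hp0.ne'
    have b2 : e₁ % (p : ℤ) < p := Int.emod_lt_of_pos _ hp0
    have b3 : 0 ≤ e₂ % (p : ℤ) := Int.emod_nonneg _ hp0.ne'
    have b4 : e₂ % (p : ℤ) < p := Int.emod_lt_of_pos _ hp0
    obtain ⟨k, hk⟩ := h2
    have hk0 : k = 0 := by
      rcases lt_trichotomy k 0 with h | h | h
      · nlinarith
      · exact h
      · nlinarith
    rw [hk0] at hk
    linarith
  · intro n hn
    rw [Finset.mem_filter, Finset.mem_range] at hn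
    obtain ⟨hn1, l, hl⟩ := hn
    unfold fm at hl
    rw [Nat.cast_one, one_mul] at hl
    refine ⟨en E l % (p : ℤ), Finset.mem_image.2 ⟨_, en_mem E l, rfl⟩, ?_⟩
    have h1 : (-(en E l % (p : ℤ))) % (p : ℤ) = n := by
      obtain ⟨k, hk⟩ := hl
      have h2 := Int.emod_add_mul_ediv (en E l) p
      have h3 : -(en E l % (p : ℤ)) = n + p * (en E l / p - k) := by
        rw [mul_sub]
        linarith
      rw [h3, Int.add_mul_emod_self_left]
      exact Int.emod_eq_of_lt (by positivity) (by exact_mod_cast hn1)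
    simp only [h1, Int.toNat_natCast]

theorem VF_VN (E : Finset ℤ) (y : ℕ) : VF y E = VN y (fun _ : Fin E.card => 1) (en E) := by
  unfold VF VN
  refine Finset.prod_congr rfl fun p hp => ?_
  rw [om_oF E (Finset.mem_filter.1 hp).2]

/-- the sieve product of a fixed set -/
theorem VF_up (hV : St_VUP) (E : Finset ℤ) : ∃ C : ℝ, 0 < C ∧ ∀ y : ℕ, 2 ≤ y → VF y E ≤ C / Real.log y ^ E.card := by
  obtain ⟨C, hC, h⟩ := hV E.card (fun _ => 1) (en E) (fun _ => le_rfl) (fun l m hlm => by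
    rw [Nat.cast_one, one_mul, one_mul]
    exact fun h => hlm (en_inj E h).symm)
  exact ⟨C, hC, fun y hy => by rw [VF_VN]; exact h y hy⟩

theorem log_floor {X : ℝ} (hX : 4 ≤ X) : Real.log X / 2 ≤ Real.log ⌊X⌋₊ := by
  have h1 : X - 1 < ⌊X⌋₊ := Nat.sub_one_lt_floor X
  have h2 : Real.log X ≤ Real.log ((⌊X⌋₊ : ℝ) ^ 2) := Real.log_le_log (by linarith) (by nlinarith)
  rw [Real.log_pow] at h2
  push_cast at h2
  linarith

/-- the product with the window -/
theorem LV_le {C ν X V : ℝ} {κ n : ℕ} (hν : 0 ≤ ν) (hC : 0 ≤ C) (hX : Real.exp 1 ≤ X) (hX4 : 4 ≤ X) (hκ : κ ≤ n)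
    (hV : V ≤ C / Real.log ⌊X⌋₊ ^ n) : ν * Real.log X ^ κ * V ≤ ν * (C * 2 ^ n) := by
  have hl : 1 ≤ Real.log X := by rw [Real.le_log_iff_exp_le (by linarith)]; exact hX
  have h1 := log_floor hX4
  have h2 : C / Real.log ⌊X⌋₊ ^ n ≤ C / (Real.log X / 2) ^ n := by gcongr
  have h3 : Real.log X ^ κ ≤ Real.log X ^ n := pow_le_pow_right₀ hl hκ
  have h4 : 0 ≤ C / (Real.log X / 2) ^ n := by positivity
  calc ν * Real.log X ^ κ * V ≤ ν * Real.log X ^ κ * (C / (Real.log X / 2) ^ n) :=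
        mul_le_mul_of_nonneg_left (hV.trans h2) (by positivity)
    _ ≤ ν * Real.log X ^ n * (C / (Real.log X / 2) ^ n) := by gcongr
    _ = ν * (C * 2 ^ n) := by
        rw [div_pow]
        field_simp

theorem ev_log (κ : ℕ) (ν : ℝ) : ∀ᶠ X : ℝ in atTop, ν * Real.log X ^ κ ≤ X := by
  have h := (Real.isLittleO_pow_log_id_atTop (n := κ)).bound (c := 1 / (|ν| + 1)) (by positivity)
  filter_upwards [h, eventually_ge_atTop (1 : ℝ)] with X hX hX1
  have hl : 0 ≤ Real.log X := Real.log_nonneg hX1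
  rw [Real.norm_of_nonneg (by positivity), id, Real.norm_of_nonneg (by linarith)] at hX
  calc ν * Real.log X ^ κ ≤ |ν| * Real.log X ^ κ := mul_le_mul_of_nonneg_right (le_abs_self ν) (by positivity)
    _ ≤ |ν| * (1 / (|ν| + 1) * X) := mul_le_mul_of_nonneg_left hX (abs_nonneg ν)
    _ = |ν| / (|ν| + 1) * X := by ring
    _ ≤ 1 * X := by
        refine mul_le_mul_of_nonneg_right ?_ (by linarith)
        rw [div_le_one (by positivity)]
        linarith
    _ = X := one_mul X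

theorem rpow_ge {t : ℕ} (ht : 1 ≤ t) {P X : ℝ} (hP : 0 ≤ P) (hX : P ^ t ≤ X) : P ≤ X ^ (1 / (t : ℝ)) := by
  have ht0 : (t : ℝ) ≠ 0 := by positivity
  have h1 : (P ^ t) ^ (1 / (t : ℝ)) ≤ X ^ (1 / (t : ℝ)) := Real.rpow_le_rpow (by positivity) hX (by positivity)
  rwa [← Real.rpow_natCast, ← Real.rpow_mul hP, mul_one_div_cancel ht0, Real.rpow_one] at h1

theorem fsv : St_FSV := by
  classical
  intro hFSC hV k g κ F hF
  choose C hC hCV using fun γ : Fin g => VF_up hV (F γ)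
  obtain ⟨G, hG⟩ : ∃ G : Finset (Fin g), G = univ.filter (fun γ => AdmZ (F γ)) := ⟨_, rfl⟩
  obtain ⟨k', hk'⟩ : ∃ k' : ℕ, k' = k + ∑ γ, (F γ).card := ⟨_, rfl⟩
  obtain ⟨t, ht, hT⟩ := hFSC k' 1 G.card le_rfl
  obtain ⟨c, hc, ν₁, hν₁, X1, hX⟩ := hT t le_rfl
  have hSC : 0 ≤ ∑ γ, C γ * 2 ^ (F γ).card := Finset.sum_nonneg fun γ _ => by have := hC γ; positivity
  obtain ⟨ν, hνe⟩ : ∃ ν : ℝ, ν = ν₁ / (1 + ∑ γ, C γ * 2 ^ (F γ).card) := ⟨_, rfl⟩
  have hν : 0 < ν := by rw [hνe]; positivity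
  -- the primes of the inadmissible members
  have hP : ∀ γ : Fin g, ∃ p : ℕ, ¬ AdmZ (F γ) → p.Prime ∧ ∀ r : ℤ, ∃ e ∈ F γ, (p : ℤ) ∣ r + e := by
    intro γ
    by_cases h : AdmZ (F γ)
    · exact ⟨0, fun h' => absurd h h'⟩
    · unfold AdmZ at h
      push Not at h
      obtain ⟨p, hp, hr⟩ := h
      exact ⟨p, fun _ => ⟨hp, hr⟩⟩
  choose P hP using hP
  have hevs : ∀ᶠ X : ℝ in atTop, (∀ γ, (((P γ : ℝ)) ^ t ≤ X)) ∧ ∀ γ, ∀ f ∈ F γ, |(f : ℝ)| ≤ X := by
    refine (eventually_all.2 fun γ => eventually_ge_atTop _).and (eventually_all.2 fun γ => ?_)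
    exact (Finset.eventually_all (F γ)).2 fun f _ => eventually_ge_atTop _
  obtain ⟨X0, hX0⟩ := eventually_atTop.1 ((ev_log κ ν).and (hevs.and ((eventually_ge_atTop X1).and
    ((eventually_ge_atTop (Real.exp 1)).and (eventually_ge_atTop (4 : ℝ))))))
  refine ⟨t, ht, c, hc, ν, hν, X0, fun X hXX E hE hEX hEa e₁ he₁ e₂ he₂ hne => ?_⟩
  obtain ⟨hL, ⟨hPX, hfX⟩, hX1, hXe, hX4⟩ := hX0 X hXX
  have hX0' : 0 < X := by linarith
  have hl : 1 ≤ Real.log X := by rw [Real.le_log_iff_exp_le hX0']; exact hXe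
  have hmemG : ∀ γ, γ ∈ G ↔ AdmZ (F γ) := fun γ => by rw [hG]; simp
  have hsumk : ∀ γ, (F γ).card ≤ k' := fun γ => by
    rw [hk']
    have := Finset.single_le_sum (f := fun γ => (F γ).card) (fun _ _ => Nat.zero_le _) (Finset.mem_univ γ)
    omega
  have h1 := hX X hX1 E (by omega) (fun e he => by
      obtain ⟨h1, h2⟩ := hEX e he
      rw [Nat.cast_one, one_mul, abs_of_nonneg (by exact_mod_cast h1)]
      exact h2) hEa e₁ he₁ e₂ he₂ hne (by
      have : (0 : ℝ) ≤ e₁ := by exact_mod_cast (hEX e₁ he₁).1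
      rw [Nat.cast_one, div_one]
      linarith)
    (fun i => F (G.equivFin.symm i).1) (fun i => by
      have hi := (hmemG _).1 (G.equivFin.symm i).2
      refine ⟨Finset.card_pos.1 (hF _).1, hsumk _, fun f hf => ?_, hi⟩
      rw [Nat.cast_one, one_mul]
      exact hfX _ f hf)
    (ν * Real.log X ^ κ) (by positivity) hL (fun i => by
      have h2 : 2 ≤ ⌊X⌋₊ := Nat.le_floor (by push_cast; linarith)
      refine (LV_le hν.le (hC _).le hXe hX4 (hF (G.equivFin.symm i).1).2 (hCV _ _ h2)).trans ?_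
      have h3 := Finset.single_le_sum (f := fun γ => C γ * 2 ^ (F γ).card) (fun γ _ => by have := hC γ; positivity)
        (Finset.mem_univ (G.equivFin.symm i).1)
      calc ν * (C (G.equivFin.symm i).1 * 2 ^ (F (G.equivFin.symm i).1).card) ≤ ν * (1 + ∑ γ, C γ * 2 ^ (F γ).card) :=
            mul_le_mul_of_nonneg_left (by linarith) hν.le
        _ = ν₁ := by rw [hνe]; field_simp) (X ^ (1 / (t : ℝ))) le_rfl le_rfl
  refine h1.trans ?_
  have hsub : ((PtsH 1 (X ^ (1 / (t : ℝ))) X (ν * Real.log X ^ κ) E e₁ e₂ (fun i => F (G.equivFin.symm i).1) : Finset ℕ) : Set ℕ) ⊆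
      SetV (X ^ (1 / (t : ℝ))) X (ν * Real.log X ^ κ) E e₁ e₂ F := by
    intro n hn
    unfold PtsH at hn
    rw [Finset.mem_coe, Finset.mem_filter] at hn
    obtain ⟨-, n1, n2, n3, n4, n5, n6, n7⟩ := hn
    refine ⟨n1, by rw [Nat.cast_one, div_one] at n2; linarith, toNat_prime n3 n4, Pt_mono ?_ n5, n6, fun γ d hd hro => ?_⟩
    · exact Real.rpow_le_rpow_of_exponent_le (by linarith) (by norm_num)
    · by_cases hγ : AdmZ (F γ)
      · have h2 := n7 (G.equivFin ⟨γ, (hmemG γ).2 hγ⟩) d hd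
        simp only [Equiv.symm_apply_apply] at h2
        exact h2 hro
      · exfalso
        obtain ⟨hp, hr⟩ := hP γ hγ
        obtain ⟨f, hf, hdv⟩ := hr ((n : ℤ) + d)
        have h2 := hro f hf (P γ) hp hdv
        exact absurd (rpow_ge ht (Nat.cast_nonneg _) (hPX γ)) (not_le.2 h2)
  have hfin : (SetV (X ^ (1 / (t : ℝ))) X (ν * Real.log X ^ κ) E e₁ e₂ F).Finite := by
    refine (Finset.finite_toSet (range (⌊2 * X⌋₊ + 1))).subset fun n hn => ?_
    rw [Finset.mem_coe, Finset.mem_range, Nat.lt_succ_iff]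
    exact Nat.le_floor hn.2.1
  have h2 := Set.ncard_le_ncard hsub hfin
  rw [Set.ncard_coe_finset] at h2
  exact_mod_cast h2

end Pool.Agent.Q257.LF
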