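import Pool.Agent.Q257.LF.Fsv

/-! Project LF (helper117), part 7, job NSV (helper257). -/

set_option autoImplicit false

namespace Pool.Agent.Q257.LF

open Finset Filter
open Pool.Agent.Q117.LF

/-- proportional forms with different slopes have a fixed prime divisor -/
theorem prop_dvd {a a' : ℕ} {c c' : ℤ} (ha : 1 ≤ a) (hne : a ≠ a') (h : (a : ℤ) * c' = a' * c) :
    ∃ p : ℕ, p.Prime ∧ (((p : ℤ) ∣ a ∧ (p : ℤ) ∣ c) ∨ ((p : ℤ) ∣ a' ∧ (p : ℤ) ∣ c')) := by
  obtain ⟨d, u, v, hd, hco, hu, hv⟩ : ∃ d u v : ℕ, 0 < d ∧ Nat.Coprime u v ∧ a = u * d ∧ a' = v * d := by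
    obtain ⟨u, v, hco, hu, hv⟩ := Nat.exists_coprime a a'
    exact ⟨Nat.gcd a a', u, v, Nat.gcd_pos_of_pos_left _ ha, hco, hu, hv⟩
  have hd' : (d : ℤ) ≠ 0 := by exact_mod_cast hd.ne'
  have h1 : (u : ℤ) * c' = v * c := by
    have h2 : (d : ℤ) * (u * c') = d * (v * c) := by
      have h3 : (a : ℤ) = u * d := by exact_mod_cast hu
      have h4 : (a' : ℤ) = v * d := by exact_mod_cast hv
      rw [h3, h4] at h
      linarith
    exact mul_left_cancel₀ hd' h2
  have hco' : IsCoprime (u : ℤ) (v : ℤ) := Nat.isCoprime_iff_coprime.2 hco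
  by_cases hu1 : u = 1
  · have hv1 : v ≠ 1 := fun hv1 => hne (by rw [hu, hv, hu1, hv1])
    obtain ⟨p, hp, hpv⟩ := Nat.exists_prime_and_dvd hv1
    refine ⟨p, hp, Or.inr ⟨?_, ?_⟩⟩
    · have : p ∣ a' := hpv.trans ⟨d, hv⟩
      exact_mod_cast this
    · have h2 : (v : ℤ) ∣ c' := hco'.symm.dvd_of_dvd_mul_left ⟨c, h1⟩
      exact (by exact_mod_cast hpv : (p : ℤ) ∣ (v : ℤ)).trans h2
  · obtain ⟨p, hp, hpu⟩ := Nat.exists_prime_and_dvd hu1
    refine ⟨p, hp, Or.inl ⟨?_, ?_⟩⟩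
    · have : p ∣ a := hpu.trans ⟨d, hu⟩
      exact_mod_cast this
    · have h2 : (u : ℤ) ∣ c := hco'.dvd_of_dvd_mul_left ⟨c', h1.symm⟩
      exact (by exact_mod_cast hpu : (p : ℤ) ∣ (u : ℤ)).trans h2

theorem nsv : St_NSV := by
  classical
  intro hNSC hV s J A b hs hA hnp hadm w₁ w₂ hw
  obtain ⟨e, he⟩ : ∃ e : Fin ((J + 1) * s) ≃ Fin (J + 1) × Fin s, e = finProdFinEquiv.symm := ⟨_, rfl⟩
  obtain ⟨t, ht, hT⟩ := hNSC ((J + 1) * s) (fun l => A (e l).2) (fun l => hA _) 1 (fun _ => s) (fun _ => A) (fun _ => hs)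
    (fun _ x => hA x) 2 (by norm_num) (e.symm w₁) (e.symm w₂) (fun h => hw (e.symm.injective h))
  obtain ⟨c, hc, ν₁, hν₁, X1, hX⟩ := hT t le_rfl
  obtain ⟨C, hC, hCV⟩ := hV s A b hA (fun l m hlm => hnp l m hlm)
  obtain ⟨ν, hνe⟩ : ∃ ν : ℝ, ν = ν₁ / (1 + C * 2 ^ s) := ⟨_, rfl⟩
  have hν : 0 < ν := by rw [hνe]; positivity
  obtain ⟨a0, ha0⟩ : ∃ a0 : ℝ, ∀ x, (A x : ℝ) ≤ a0 := ⟨∑ x, (A x : ℝ), fun x =>
    Finset.single_le_sum (f := fun x => (A x : ℝ)) (fun _ _ => Nat.cast_nonneg _) (Finset.mem_univ x)⟩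
  obtain ⟨b0, hb0⟩ : ∃ b0 : ℝ, ∀ x, |(b x : ℝ)| ≤ b0 := ⟨∑ x, |(b x : ℝ)|, fun x =>
    Finset.single_le_sum (f := fun x => |(b x : ℝ)|) (fun _ _ => abs_nonneg _) (Finset.mem_univ x)⟩
  have hx0 : 0 < s := hs
  have ha00 : 0 ≤ a0 := (Nat.cast_nonneg _).trans (ha0 ⟨0, hx0⟩)
  obtain ⟨X0, hX0⟩ := eventually_atTop.1 ((ev_log s ν).and ((ev_log s (a0 * ν)).and ((eventually_ge_atTop (2 * b0)).and
    ((eventually_ge_atTop X1).and ((eventually_ge_atTop (Real.exp 1)).and (eventually_ge_atTop (4 : ℝ)))))))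
  refine ⟨t, ht, c, hc, ν, hν, X0, fun X hXX D hD hDν hdist hadmD => ?_⟩
  obtain ⟨hL, hLa, hXb, hX1, hXe, hX4⟩ := hX0 X hXX
  have hX0' : 0 < X := by linarith
  have hl : 1 ≤ Real.log X := by rw [Real.le_log_iff_exp_le hX0']; exact hXe
  obtain ⟨be, hbe⟩ : ∃ be : Fin ((J + 1) * s) → ℤ, be = fun l => (A (e l).2 : ℤ) * D (e l).1 + b (e l).2 := ⟨_, rfl⟩
  have hfm : ∀ (l : Fin ((J + 1) * s)) (n : ℕ), fm (fun l => A (e l).2) be l n = (A (e l).2 : ℤ) * (n + D (e l).1) + b (e l).2 := by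
    intro l n
    unfold fm
    rw [hbe]
    ring
  have hAD : ∀ l : Fin ((J + 1) * s), (0 : ℝ) ≤ (A (e l).2 : ℝ) * D (e l).1 ∧ (A (e l).2 : ℝ) * D (e l).1 ≤ X := by
    intro l
    refine ⟨by positivity, ?_⟩
    calc (A (e l).2 : ℝ) * D (e l).1 ≤ a0 * (ν * Real.log X ^ s) := mul_le_mul (ha0 _) (hDν _) (Nat.cast_nonneg _) ha00
      _ = a0 * ν * Real.log X ^ s := by ring
      _ ≤ X := hLa
  have hbl : ∀ x, |(b x : ℝ)| ≤ X / 2 := fun x => (hb0 x).trans (by linarith)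
  have hadmS : AdmS (fun l => A (e l).2) be := by
    intro p hp
    obtain ⟨n, hn⟩ := hadmD p hp
    exact ⟨n, fun l => by rw [hfm]; exact hn _ _⟩
  have hVN : ∀ y : ℕ, VN y (fun l => A (e l).2) be = ∏ p ∈ (Icc 1 y).filter Nat.Prime, (1 - (oD A b D p : ℝ) / p) := by
    intro y
    unfold VN
    refine Finset.prod_congr rfl fun p _ => ?_
    have : om (fun l => A (e l).2) be p = oD A b D p := by
      unfold om oD
      congr 1
      ext n
      simp only [Finset.mem_filter]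
      refine and_congr_right fun _ => ⟨?_, ?_⟩
      · rintro ⟨l, hl⟩
        rw [hfm] at hl
        exact ⟨_, _, hl⟩
      · rintro ⟨j, x, hjx⟩
        refine ⟨e.symm (j, x), ?_⟩
        rw [hfm, Equiv.apply_symm_apply]
        exact hjx
    rw [this]
  have h1 := hX X hX1 be (fun l => by
      rw [hbe]
      push_cast
      obtain ⟨h1, h2⟩ := hAD l
      have h3 := abs_le.1 (hbl (e l).2)
      rw [abs_le]
      constructor <;> linarith [h3.1, h3.2])
    (by
      simp only [Equiv.apply_symm_apply, hbe]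
      push_cast
      have h2 : (1 : ℝ) ≤ A w₁.2 := by exact_mod_cast hA w₁.2
      have h3 := (abs_le.1 (hbl w₁.2)).1
      have h4 : (0 : ℝ) ≤ (A w₁.2 : ℝ) * D w₁.1 := by positivity
      nlinarith)
    (fun l m hlm heq => by
      have hne : e l ≠ e m := fun h => hlm (e.injective h)
      simp only [hbe] at heq
      by_cases hAA : A (e l).2 = A (e m).2
      · have hA0 : (A (e m).2 : ℤ) ≠ 0 := by
          have := hA (e m).2
          have h2 : 0 < A (e m).2 := this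
          exact_mod_cast h2.ne'
        have hd := hdist (e l).1 (e l).2 (e m).1 (e m).2 (fun h => hne (by
          rw [← Prod.mk.eta (p := e l), ← Prod.mk.eta (p := e m)]
          exact h)) hAA
        rw [hAA] at heq
        have h3 := mul_left_cancel₀ hA0 heq
        apply hd
        rw [hAA]
        exact h3.symm
      · obtain ⟨p, hp, h⟩ := prop_dvd (hA _) hAA heq
        obtain ⟨n, hn⟩ := hadmD p hp
        rcases h with ⟨h1, h2⟩ | ⟨h1, h2⟩
        · apply hn (e l).1 (e l).2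
          have : (A (e l).2 : ℤ) * (n + D (e l).1) + b (e l).2 = A (e l).2 * n + ((A (e l).2 : ℤ) * D (e l).1 + b (e l).2) := by ring
          rw [this]
          exact dvd_add (h1.mul_right _) h2
        · apply hn (e m).1 (e m).2
          have : (A (e m).2 : ℤ) * (n + D (e m).1) + b (e m).2 = A (e m).2 * n + ((A (e m).2 : ℤ) * D (e m).1 + b (e m).2) := by ring
          rw [this]
          exact dvd_add (h1.mul_right _) h2)
    hadmS (fun _ => b) (fun _ x => (hbl x).trans (by push_cast; linarith)) (fun _ => hadm)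
    (ν * Real.log X ^ s) (by positivity) hL (fun _ => by
      have h2 : 2 ≤ ⌊X⌋₊ := Nat.le_floor (by push_cast; linarith)
      refine (LV_le hν.le hC.le hXe hX4 le_rfl (hCV _ h2)).trans ?_
      calc ν * (C * 2 ^ s) ≤ ν * (1 + C * 2 ^ s) := mul_le_mul_of_nonneg_left (by linarith) hν.le
        _ = ν₁ := by rw [hνe]; field_simp) (X ^ (1 / (t : ℝ))) le_rfl le_rfl
  rw [hVN] at h1
  refine h1.trans ?_
  have hsub : ((PtsN 2 (X ^ (1 / (t : ℝ))) X (ν * Real.log X ^ s) (fun l => A (e l).2) be (e.symm w₁) (e.symm w₂) (fun _ : Fin 1 => s)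
      (fun _ => A) (fun _ => b) : Finset ℕ) : Set ℕ) ⊆ SetD (X ^ (1 / (t : ℝ))) X (ν * Real.log X ^ s) A b D w₁ w₂ := by
    intro n hn
    unfold PtsN at hn
    rw [Finset.mem_coe, Finset.mem_filter] at hn
    obtain ⟨-, n1, n2, n3, n4, n5, n6, n7⟩ := hn
    rw [hfm, Equiv.apply_symm_apply] at n3 n4 n5
    refine ⟨n1, by push_cast at n2; linarith, toNat_prime n3 n4, Pt_mono ?_ n5, fun j x => ?_, fun k hk hro x => ?_⟩
    · exact Real.rpow_le_rpow_of_exponent_le (by linarith) (by norm_num)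
    · have h2 := n6 (e.symm (j, x))
      rw [hfm, Equiv.apply_symm_apply] at h2
      exact h2
    · obtain ⟨l, hl1, hl2⟩ := n7 0 (k - n) hk (fun x => by
        have : (n : ℤ) + (k - n) = k := by ring
        rw [this]
        exact hro x) x
      have hl1' : A x = A (e l).2 := hl1
      refine ⟨(e l).1, (e l).2, hl1', ?_⟩
      rw [hbe] at hl2
      simp only at hl2
      have h3 : (A x : ℤ) * k + b x = A x * n + ((A x : ℤ) * (k - n) + b x) := by ring
      rw [h3, hl2, hl1']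
      ring
  have hfin : (SetD (X ^ (1 / (t : ℝ))) X (ν * Real.log X ^ s) A b D w₁ w₂).Finite := by
    refine (Finset.finite_toSet (range (⌊2 * X⌋₊ + 1))).subset fun n hn => ?_
    rw [Finset.mem_coe, Finset.mem_range, Nat.lt_succ_iff]
    exact Nat.le_floor hn.2.1
  have h2 := Set.ncard_le_ncard hsub hfin
  rw [Set.ncard_coe_finset] at h2
  exact_mod_cast h2

end Pool.Agent.Q257.LF
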